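import Pool.Agent.H28.N6.Lib

/-!
# Row AVF: the average of the volumes over a pencil
-/

set_option autoImplicit false

open MeasureTheory Pool.Agent.H28.N6

namespace Pool.Agent.H21.N6D

theorem key {X Y : Type} [MeasurableSpace X] [MeasurableSpace Y] (μ : Measure X) (ν : Measure Y)
    [SFinite μ] [SFinite ν] (S : Set (X × Y)) (hS : MeasurableSet S) (T : Set X)
    (hT : MeasurableSet T) (Z : Set Y) (hZ : MeasurableSet Z) (hST : S ⊆ T ×ˢ Z)
    (hfin : (μ.prod ν) S ≠ ⊤) :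
    (∫ t in T, (ν (Prod.mk t ⁻¹' S)).toReal ∂μ) =
      (∫ z in Z, (μ ((fun t => (t, z)) ⁻¹' S)).toReal ∂ν) ∧
    IntegrableOn (fun z => (μ ((fun t => (t, z)) ⁻¹' S)).toReal) Z ν := by
  have m1 : Measurable fun t => ν (Prod.mk t ⁻¹' S) := measurable_measure_prodMk_left hS
  have m2 : Measurable fun z => μ ((fun t => (t, z)) ⁻¹' S) := measurable_measure_prodMk_right hS
  have e1 : ∫⁻ t in T, ν (Prod.mk t ⁻¹' S) ∂μ = (μ.prod ν) S := by
    rw [← lintegral_indicator hT, Measure.prod_apply hS]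
    refine lintegral_congr fun t => ?_
    by_cases ht : t ∈ T
    · rw [Set.indicator_of_mem ht]
    · rw [Set.indicator_of_notMem ht]
      have : Prod.mk t ⁻¹' S = ∅ := by
        ext z
        simp only [Set.mem_preimage, Set.mem_empty_iff_false, iff_false]
        intro h
        exact ht (hST h).1
      rw [this, measure_empty]
  have e2 : ∫⁻ z in Z, μ ((fun t => (t, z)) ⁻¹' S) ∂ν = (μ.prod ν) S := by
    rw [← lintegral_indicator hZ, Measure.prod_apply_symm hS]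
    refine lintegral_congr fun z => ?_
    by_cases hz : z ∈ Z
    · rw [Set.indicator_of_mem hz]
    · rw [Set.indicator_of_notMem hz]
      have : (fun t => (t, z)) ⁻¹' S = ∅ := by
        ext t
        simp only [Set.mem_preimage, Set.mem_empty_iff_false, iff_false]
        intro h
        exact hz (hST h).2
      rw [this, measure_empty]
  constructor
  · rw [integral_toReal m1.aemeasurable, integral_toReal m2.aemeasurable, e1, e2]
    · exact ae_lt_top m2 (by rw [e2]; exact hfin)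
    · exact ae_lt_top m1 (by rw [e1]; exact hfin)
  · exact integrable_toReal_of_lintegral_ne_top m2.aemeasurable (by rw [e2]; exact hfin)

theorem pf_AVF : T_AVF := by
  intro F _ _ _ _ _ D A B m
  haveI := D.haar
  set ν : Measure (Fin 4 → F) := Measure.pi (fun _ : Fin 4 => D.μ) with hν
  have cqf : ∀ G : Matrix (Fin 4) (Fin 4) F, Continuous fun z : Fin 4 → F => qf G z := by
    intro G
    unfold qf
    exact Continuous.dotProduct continuous_id (continuous_const.matrix_mulVec continuous_id)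
  have cZ : IsClosed {z : Fin 4 → F | ∀ i, ‖z i‖ ≤ 1} := by
    rw [Set.setOf_forall]
    exact isClosed_iInter fun i => isClosed_le (continuous_apply i).norm continuous_const
  have mZ := cZ.measurableSet
  have nZ : ν {z : Fin 4 → F | ∀ i, ‖z i‖ ≤ 1} = 1 := by
    have e : {z : Fin 4 → F | ∀ i, ‖z i‖ ≤ 1} = Set.pi Set.univ fun _ => {x : F | ‖x‖ ≤ 1} := by
      ext z
      simp
    rw [e, hν, Measure.pi_pi]
    simp [D.one]
  have main : ∀ (ρ : ℝ) (g : F → (Fin 4 → F) → F) (hg : Continuous fun x : F × (Fin 4 → F) =>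
      g x.1 x.2) (hρ : D.μ {t : F | ‖t‖ ≤ ρ} ≠ ⊤),
      (∫ t in {t : F | ‖t‖ ≤ ρ}, (ν {z : Fin 4 → F | (∀ i, ‖z i‖ ≤ 1) ∧
        ‖g t z‖ ≤ ‖D.p‖ ^ m}).toReal ∂D.μ) =
      (∫ z in {z : Fin 4 → F | ∀ i, ‖z i‖ ≤ 1}, (D.μ {t : F | ‖t‖ ≤ ρ ∧
        ‖g t z‖ ≤ ‖D.p‖ ^ m}).toReal ∂ν) ∧
      IntegrableOn (fun z => (D.μ {t : F | ‖t‖ ≤ ρ ∧ ‖g t z‖ ≤ ‖D.p‖ ^ m}).toReal)
        {z : Fin 4 → F | ∀ i, ‖z i‖ ≤ 1} ν := by
    intro ρ g hg hρ
    have cT : IsClosed {t : F | ‖t‖ ≤ ρ} := isClosed_le continuous_norm continuous_const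
    let S : Set (F × (Fin 4 → F)) := {x | ‖x.1‖ ≤ ρ} ∩ {x | ∀ i, ‖x.2 i‖ ≤ 1} ∩
      {x | ‖g x.1 x.2‖ ≤ ‖D.p‖ ^ m}
    have cS : IsClosed S := by
      refine (IsClosed.inter ?_ ?_).inter ?_
      · exact cT.preimage continuous_fst
      · exact cZ.preimage continuous_snd
      · exact isClosed_le hg.norm continuous_const
    have hST : S ⊆ {t : F | ‖t‖ ≤ ρ} ×ˢ {z : Fin 4 → F | ∀ i, ‖z i‖ ≤ 1} :=
      fun x hx => ⟨hx.1.1, hx.1.2⟩
    have hfin : (D.μ.prod ν) S ≠ ⊤ := by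
      refine ne_top_of_le_ne_top ?_ (measure_mono hST)
      rw [Measure.prod_prod, nZ, mul_one]
      exact hρ
    obtain ⟨k1, k2⟩ := key D.μ ν S cS.measurableSet _ cT.measurableSet _ mZ hST hfin
    have f1 : ∀ t ∈ {t : F | ‖t‖ ≤ ρ}, (ν (Prod.mk t ⁻¹' S)).toReal =
        (ν {z : Fin 4 → F | (∀ i, ‖z i‖ ≤ 1) ∧ ‖g t z‖ ≤ ‖D.p‖ ^ m}).toReal := by
      intro t ht
      congr 2
      ext z
      exact ⟨fun h => ⟨h.1.2, h.2⟩, fun h => ⟨⟨ht, h.1⟩, h.2⟩⟩
    have f2 : ∀ z ∈ {z : Fin 4 → F | ∀ i, ‖z i‖ ≤ 1}, (D.μ ((fun t => (t, z)) ⁻¹' S)).toReal =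
        (D.μ {t : F | ‖t‖ ≤ ρ ∧ ‖g t z‖ ≤ ‖D.p‖ ^ m}).toReal := by
      intro z hz
      congr 2
      ext t
      exact ⟨fun h => ⟨h.1.1, h.2⟩, fun h => ⟨⟨h.1, hz⟩, h.2⟩⟩
    rw [setIntegral_congr_fun cT.measurableSet f1, setIntegral_congr_fun mZ f2] at k1
    exact ⟨k1, (integrableOn_congr_fun f2 mZ).1 k2⟩
  have fin1 : D.μ {t : F | ‖t‖ ≤ 1} ≠ ⊤ := by
    rw [D.one]
    exact ENNReal.one_ne_top
  have fin2 : D.μ {t : F | ‖t‖ ≤ ‖D.p‖} ≠ ⊤ := by
    refine ne_top_of_le_ne_top fin1 (measure_mono fun t ht => ?_)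
    exact le_trans (show ‖t‖ ≤ ‖D.p‖ from ht) D.p1.le
  obtain ⟨a1, a2⟩ := main 1 (fun t z => qf A z + t * qf B z)
    (((cqf A).comp continuous_snd).add (continuous_fst.mul ((cqf B).comp continuous_snd))) fin1
  obtain ⟨b1, b2⟩ := main ‖D.p‖ (fun t z => t * qf A z + qf B z)
    ((continuous_fst.mul ((cqf A).comp continuous_snd)).add ((cqf B).comp continuous_snd)) fin2
  unfold dir
  rw [integral_add a2 b2, ← a1, ← b1]
  congr 1
  · refine integral_congr_ae (Filter.Eventually.of_forall fun t => ?_)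
    show V D (A + t • B) 0 m = _
    unfold V vol
    simp only [add_zero, qf_pencil]
    rfl
  · refine integral_congr_ae (Filter.Eventually.of_forall fun t => ?_)
    show V D (t • A + B) 0 m = _
    unfold V vol
    simp only [add_zero, qf_add, qf_smul]
    rfl

end Pool.Agent.H21.N6D
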