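import Pool.Agent.H28.N6.Lib

/-!
# Row NFS: totally isotropic spaces of a nearby member of the pencil
-/

set_option autoImplicit false

open MeasureTheory Pool.Agent.H28.N6 Matrix Filter Topology

namespace Pool.Agent.H21.N6D

theorem exists_orth {F : Type} [Field F] (h2 : (2 : F) ≠ 0) (G : Matrix (Fin 6) (Fin 6) F)
    (hG : G.transpose = G) (hd : G.det ≠ 0) (P : Submodule F (Fin 6 → F))
    (hP : Module.finrank F P = 2) :
    ∃ w : Fin 6 → F, (∀ p ∈ P, p ⬝ᵥ (G *ᵥ w) = 0) ∧ qf G w ≠ 0 := by
  by_contra hcon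
  push Not at hcon
  have hnd : (Matrix.toBilin' G).Nondegenerate :=
    (LinearMap.BilinForm.nondegenerate_toBilin'_iff_det_ne_zero).2 hd
  have happ : ∀ x y, Matrix.toBilin' G x y = x ⬝ᵥ (G *ᵥ y) := fun x y =>
    Matrix.toBilin'_apply' G x y
  have hrefl : (Matrix.toBilin' G).IsRefl := by
    intro x y h
    rw [happ] at h ⊢
    rw [bil_comm G hG]
    exact h
  have d1 := LinearMap.BilinForm.finrank_orthogonal hnd P
  have d2 := LinearMap.BilinForm.finrank_orthogonal hnd
    ((Matrix.toBilin' G).orthogonal P)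
  have hle : (Matrix.toBilin' G).orthogonal P ≤
      (Matrix.toBilin' G).orthogonal ((Matrix.toBilin' G).orthogonal P) := by
    intro x hx
    rw [LinearMap.BilinForm.mem_orthogonal_iff] at hx ⊢
    intro y hy
    rw [LinearMap.BilinForm.mem_orthogonal_iff] at hy
    have q1 : ∀ v : Fin 6 → F, (∀ n ∈ P, Matrix.toBilin' G n v = 0) → qf G v = 0 := by
      intro v hv
      refine hcon v fun p hp => ?_
      have := hv p hp
      rw [happ] at this
      exact this
    have e := qf_polar G hG y x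
    have hyx : qf G (y + x) = 0 := by
      refine q1 _ fun n hn => ?_
      have e1 : Matrix.toBilin' G n x = 0 := hx n hn
      have e2 : Matrix.toBilin' G n y = 0 := hy n hn
      rw [map_add, e1, e2, add_zero]
    rw [hyx, q1 x hx, q1 y hy] at e
    rw [happ]
    have e3 : 2 * (y ⬝ᵥ (G *ᵥ x)) = 0 := by linear_combination -e
    rcases mul_eq_zero.1 e3 with h | h
    · exact absurd h h2
    · exact h
  have d3 := Submodule.finrank_mono hle
  have d4 : Module.finrank F (Fin 6 → F) = 6 := by simp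
  omega

theorem pf_NFS (hLCO : T_LCO) : T_NFS := by
  intro F _ _ _ h2 R6 S6 s hR hS hd hs hiso
  obtain ⟨P, hP, hPi⟩ := hiso
  obtain ⟨w, hw, hβ⟩ := exists_orth h2 R6 hR hd P hP
  obtain ⟨δ, hδ, hU⟩ := hLCO F h2 6 R6 hR hd
  set β := qf R6 w with hβd
  have ev : ∀ᶠ l in 𝓝[≠] (0 : F), ∀ i j, ‖(-(β * l ^ 2) / s) * S6 i j‖ < δ := by
    rw [eventually_all]
    intro i
    rw [eventually_all]
    intro j
    have hc : Continuous fun l : F => ‖(-(β * l ^ 2) / s) * S6 i j‖ := by fun_prop
    have ht := hc.tendsto 0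
    have h0 : ‖(-(β * (0 : F) ^ 2) / s) * S6 i j‖ = 0 := by simp
    rw [h0] at ht
    exact (ht.eventually (gt_mem_nhds hδ)).filter_mono nhdsWithin_le_nhds
  obtain ⟨l, hl, hl0⟩ := (ev.and self_mem_nhdsWithin).exists
  have hl0' : l ≠ 0 := hl0
  set u := -(β * l ^ 2) / s with hu
  have hu0 : u ≠ 0 := by
    rw [hu]
    exact div_ne_zero (neg_ne_zero.2 (mul_ne_zero hβ (pow_ne_zero 2 hl0'))) hs
  have hus : u * s = -(β * l ^ 2) := by
    rw [hu]
    field_simp
  obtain ⟨U, hUgl, hUe⟩ := hU (R6 + u • S6) (by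
    rw [transpose_add, transpose_smul, hR, hS]) (by
    intro i j
    have : (R6 + u • S6) i j - R6 i j = u * S6 i j := by
      rw [Matrix.add_apply, Matrix.smul_apply, smul_eq_mul]
      ring
    rw [this]
    exact hl i j)
  have hUd : U.det ≠ 0 := by
    intro h0
    have := hUgl.2
    rw [h0, norm_zero] at this
    exact zero_ne_one this
  refine ⟨u, hu0, ?_, ?_⟩
  · rw [← hUe, det_mul, det_mul, det_transpose]
    exact mul_ne_zero (mul_ne_zero hUd hd) hUd
  · obtain ⟨W0, hW0, hW0m⟩ := finrank_cons P hP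
    let h : (Fin 7 → F) →ₗ[F] (Fin 7 → F) :=
      { toFun := fun z => Fin.cons (z 0) (U⁻¹ *ᵥ (Fin.tail z + (z 0 * l) • w))
        map_add' := by
          intro x y
          ext i
          refine Fin.cases ?_ (fun i => ?_) i
          · rfl
          · simp only [Fin.cons_succ, Pi.add_apply]
            rw [← Pi.add_apply (U⁻¹ *ᵥ _) (U⁻¹ *ᵥ _) i, ← mulVec_add]
            refine congrFun (congrArg (fun v => U⁻¹ *ᵥ v) ?_) i
            ext k
            simp only [Fin.tail, Pi.add_apply, Pi.smul_apply, smul_eq_mul]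
            ring
        map_smul' := by
          intro c x
          ext i
          refine Fin.cases ?_ (fun i => ?_) i
          · rfl
          · simp only [Fin.cons_succ, Pi.smul_apply, RingHom.id_apply]
            rw [← Pi.smul_apply c (U⁻¹ *ᵥ _) i, ← mulVec_smul]
            refine congrFun (congrArg (fun v => U⁻¹ *ᵥ v) ?_) i
            ext k
            simp only [Fin.tail, Pi.add_apply, Pi.smul_apply, smul_eq_mul]
            ring }
    have hUi : ∀ v : Fin 6 → F, U *ᵥ (U⁻¹ *ᵥ v) = v := by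
      intro v
      rw [mulVec_mulVec, Matrix.mul_nonsing_inv _ hUd.isUnit, one_mulVec]
    have h0 : ∀ z, h z 0 = z 0 := fun z => rfl
    have ht : ∀ z, Fin.tail (h z) = U⁻¹ *ᵥ (Fin.tail z + (z 0 * l) • w) := fun z => rfl
    have hinj : Function.Injective h := by
      intro x y hxy
      have e0 : x 0 = y 0 := by rw [← h0 x, ← h0 y, hxy]
      have e1 : Fin.tail x + (x 0 * l) • w = Fin.tail y + (y 0 * l) • w := by
        rw [← hUi (Fin.tail x + (x 0 * l) • w), ← hUi (Fin.tail y + (y 0 * l) • w), ← ht, ← ht,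
          hxy]
      rw [e0] at e1
      have e2 := add_right_cancel e1
      rw [← Fin.cons_self_tail x, ← Fin.cons_self_tail y, e0, e2]
    refine ⟨W0.map h, ?_, ?_⟩
    · refine Eq.trans ?_ hW0
      exact (Submodule.equivMapOfInjective h hinj W0).finrank_eq.symm
    · intro z hz
      obtain ⟨x, hx, rfl⟩ := Submodule.mem_map.1 hz
      have hp := (hW0m x).1 hx
      rw [h0, ht, ← hUe, qf_congr, hUi, qf_polar R6 hR, hPi _ hp, qf_smul_vec, mulVec_smul,
        dotProduct_smul, hw _ hp, smul_zero, mul_zero, hus, ← hβd]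
      ring

end Pool.Agent.H21.N6D
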